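import Pool.Agent.Work.MP_1aba1b_co.Lower

namespace Pool.Agent.Work.MP_1aba1b_co

open Finset Classical

variable {k : ℕ}

lemma real_sum {ι : Type} (s : Finset ι) (a e : ι → Fin k → ℕ) (h : ∀ i ∈ s, Real k (a i) (e i)) :
    Real k (∑ i ∈ s, a i) (∑ i ∈ s, e i) := by
  induction s using Finset.induction_on with
  | empty => simpa using real_zero
  | insert i s hi ih =>
    rw [Finset.sum_insert hi, Finset.sum_insert hi]
    exact real_add (h i (mem_insert_self _ _)) (ih fun j hj => h j (mem_insert_of_mem hj))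

lemma real_nsmul (m : ℕ) {a e : Fin k → ℕ} (h : Real k a e) : Real k (m • a) (m • e) := by
  induction m with
  | zero => simpa using real_zero
  | succ m ih =>
    rw [succ_nsmul, succ_nsmul]
    exact real_add ih h

/-- the complete graph on `c + 1` vertices with all edges of colour `j` -/
lemma real_clique (j : Fin k) (c : ℕ) :
    Real k (fun i => if i = j then c else 0) (fun i => if i = j then (c + 1) * c / 2 else 0) := by
  have h := real_lex (real_zero (k := k)) j (c + 1) (by omega)
  simpa using h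

lemma real_edge (j : Fin k) :
    Real k (fun i => if i = j then 1 else 0) (fun i => if i = j then 1 else 0) := by
  have h := real_clique (k := k) j 1
  simpa using h

/-- from a realised pair to a flip sequence -/
lemma flip_of_real {a e : Fin k → ℕ} (h : Real k a e) (ha : StrictMono a) (he : StrictAnti e)
    (hpos : ∀ j, 0 < a j) : IsFlipSequence k a := by
  obtain ⟨V, _, _, D, hD⟩ := h
  refine ⟨ha, hpos, V, inferInstance, inferInstance, ?_⟩
  let G : SimpleGraph V :=
    { Adj := D.A
      symm := ⟨fun x y h => D.A_symm h⟩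
      loopless := ⟨fun x h => D.A_irrefl x h⟩ }
  have hcol : ∀ e : G.edgeSet, ∃ i, ∀ x y, (e : Sym2 V) = s(x, y) → D.C i x y := by
    rintro ⟨e, he⟩
    induction e using Sym2.ind with
    | _ x y =>
      obtain ⟨i, hi⟩ : D.A x y := he
      refine ⟨i, fun x' y' h => ?_⟩
      rcases Sym2.eq_iff.1 h with ⟨rfl, rfl⟩ | ⟨rfl, rfl⟩
      · exact hi
      · exact D.symm _ _ _ hi
  choose f hf using hcol
  have hC : ∀ j x y, (CG.of G f).C j x y ↔ D.C j x y := by
    intro j x y
    constructor
    · rintro ⟨h, rfl⟩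
      exact hf ⟨s(x, y), h⟩ x y rfl
    · intro h
      have hadj : G.Adj x y := ⟨j, h⟩
      exact ⟨hadj, D.disj _ _ _ _ (hf ⟨s(x, y), hadj⟩ x y rfl) h⟩
  have hN : ∀ x y, (CG.of G f).N x y ↔ D.N x y := by
    intro x y
    simp only [CG.N, CG.A, hC]
  refine ⟨G, f, ?_, ?_⟩
  · intro v j
    rw [colDeg_eq]
    simp only [hC]
    exact (hD v j).1
  · intro v i j hij
    have h1 := closedCount_eq G f i v
    have h2 := closedCount_eq G f j v
    simp only [hC, hN] at h1 h2
    have h3 := (hD v i).2
    have h4 := (hD v j).2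
    unfold pr at h3 h4
    rw [h3] at h1
    rw [h4] at h2
    have h5 := he hij
    change closedCount G f j v < closedCount G f i v
    omega

/-- degrees of the adjustment block -/
def aAdj (k : ℕ) (j : Fin k) : ℕ := k + 3 + (j : ℕ)

/-- closed counts of the adjustment block -/
def eAdj (k : ℕ) (j : Fin k) : ℕ :=
  (k + 2 - (j : ℕ)) * (k + 1 - (j : ℕ)) / 2 + (2 * (j : ℕ) + 2)

lemma real_adjust : Real k (aAdj k) (eAdj k) := by
  have h1 := real_sum (k := k) univ (fun j i : Fin k => if i = j then (k + 1 - (j : ℕ)) else 0)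
    (fun j i : Fin k => if i = j then ((k + 1 - (j : ℕ)) + 1) * (k + 1 - (j : ℕ)) / 2 else 0)
    (fun j _ => real_clique j _)
  have h2 := real_sum (k := k) univ
    (fun j : Fin k => (2 * (j : ℕ) + 2) • (fun i : Fin k => if i = j then 1 else 0))
    (fun j : Fin k => (2 * (j : ℕ) + 2) • (fun i : Fin k => if i = j then 1 else 0))
    (fun j _ => real_nsmul _ (real_edge j))
  have h3 := real_add h1 h2
  convert h3 using 1
  · funext j
    simp only [Pi.add_apply, Finset.sum_apply, Finset.sum_ite_eq, mem_univ, if_true,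
      Pi.smul_apply, smul_eq_mul, mul_ite, mul_one, mul_zero, aAdj]
    have := j.isLt
    omega
  · funext j
    simp only [Pi.add_apply, Finset.sum_apply, Finset.sum_ite_eq, mem_univ, if_true,
      Pi.smul_apply, smul_eq_mul, mul_ite, mul_one, mul_zero, eAdj]
    have := j.isLt
    have h : k + 1 - (j : ℕ) + 1 = k + 2 - (j : ℕ) := by omega
    rw [h]

/-- indicator of large colours times `m` -/
def lg (k q m : ℕ) (j : Fin k) : ℕ := if (j : ℕ) < q then 0 else m

/-- degrees of the main block -/
def aM (k q m : ℕ) (j0 j : Fin k) : ℕ :=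
  (2 * q + 1) * lg k q m j + if j = j0 then 2 * q + 1 - 1 else 0

/-- closed counts of the main block -/
def eM (k q m : ℕ) (j0 j : Fin k) : ℕ :=
  (2 * q + 1) ^ 2 * lg k q m j + if j = j0 then
        (1 + ∑ i : Fin k, lg k q m i) * ((2 * q + 1) * (2 * q + 1 - 1) / 2)
        else 0

/-- the main block -/
lemma real_main (q m : ℕ) (j0 : Fin k) : Real k (aM k q m j0) (eM k q m j0) := by
  have h1 : Real k (lg k q m) (lg k q m) := by
    have h2 := real_sum (k := k) univ
      (fun j : Fin k => (lg k q m j) • (fun i : Fin k => if i = j then 1 else 0))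
      (fun j : Fin k => (lg k q m j) • (fun i : Fin k => if i = j then 1 else 0))
      (fun j _ => real_nsmul _ (real_edge j))
    convert h2 using 1 <;>
    · funext j
      simp only [Finset.sum_apply, Finset.sum_ite_eq, mem_univ, if_true,
        Pi.smul_apply, smul_eq_mul, mul_ite, mul_one, mul_zero]
  exact real_lex h1 j0 (2 * q + 1) (by omega)

theorem lower {k q : ℕ} (hq : 1 ≤ q) (hk : 3 * q + 1 ≤ k) : PositionBounded k q := by
  refine ⟨3 * q + k + 2, by omega, fun N => ?_⟩
  set m := N + 1 with hm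
  have hsum := real_sum (k := k) (univ.filter fun j : Fin k => (j : ℕ) < q)
    (fun j => aM k q m j) (fun j => eM k q m j) (fun j _ => real_main q m j)
  have hall := real_add hsum (real_adjust (k := k))
  have hcard : (univ.filter (fun j : Fin k => (j : ℕ) < q)).card = q := by
    rw [Fin.card_filter_val_lt]
    exact min_eq_right (by omega)
  have hS : (∑ i : Fin k, lg k q m i) = (k - q) * m := by
    have h1 := Finset.card_filter_add_card_filter_not (s := (univ : Finset (Fin k)))
      (fun j : Fin k => (j : ℕ) < q)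
    rw [hcard, Finset.card_univ, Fintype.card_fin] at h1
    have h2 : (univ.filter (fun j : Fin k => ¬ (j : ℕ) < q)).card = k - q := by omega
    rw [← h2, ← smul_eq_mul, ← Finset.sum_const, Finset.sum_filter]
    refine Finset.sum_congr rfl fun i _ => ?_
    by_cases h : (i : ℕ) < q <;> simp [h, lg]
  have hP : (2 * q + 1) * (2 * q + 1 - 1) / 2 = (2 * q + 1) * q := by
    have : (2 * q + 1) * (2 * q + 1 - 1) = 2 * ((2 * q + 1) * q) := by
      rw [Nat.add_sub_cancel]; ring
    rw [this, Nat.mul_div_cancel_left _ (by norm_num)]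
  set aT : Fin k → ℕ := (∑ i ∈ univ.filter (fun j : Fin k => (j : ℕ) < q), aM k q m i)
    + aAdj k with haT
  set eT : Fin k → ℕ := (∑ i ∈ univ.filter (fun j : Fin k => (j : ℕ) < q), eM k q m i)
    + eAdj k with heT
  have ha_eq : ∀ j : Fin k, aT j
      = if (j : ℕ) < q then 2 * q + (k + 3 + (j : ℕ))
        else q * ((2 * q + 1) * m) + (k + 3 + (j : ℕ)) := by
    intro j
    simp only [haT, aM, lg, aAdj, Pi.add_apply, Finset.sum_apply, Finset.sum_add_distrib,
      Finset.sum_const, hcard,
      smul_eq_mul, Finset.sum_ite_eq, mem_filter, mem_univ, true_and, Nat.add_sub_cancel]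
    by_cases h : (j : ℕ) < q <;> simp [h]
  have he_eq : ∀ j : Fin k, eT j
      = if (j : ℕ) < q then (1 + (k - q) * m) * ((2 * q + 1) * q) + eAdj k j
        else q * ((2 * q + 1) ^ 2 * m) + eAdj k j := by
    intro j
    simp only [heT, eM, Pi.add_apply, Finset.sum_apply, Finset.sum_add_distrib,
      Finset.sum_const, hcard,
      smul_eq_mul, Finset.sum_ite_eq, mem_filter, mem_univ, true_and, hS, hP]
    by_cases h : (j : ℕ) < q <;> simp [h, lg]
  have hadj : ∀ i j : Fin k, i < j → eAdj k j < eAdj k i := by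
    intro i j hij
    have hi := i.isLt
    have hj := j.isLt
    have hij' : (i : ℕ) < (j : ℕ) := hij
    obtain ⟨d, hd⟩ : ∃ d, (j : ℕ) = (i : ℕ) + d + 1 := ⟨(j : ℕ) - (i : ℕ) - 1, by omega⟩
    obtain ⟨r, hr⟩ : ∃ r, k = (j : ℕ) + r + 1 := ⟨k - (j : ℕ) - 1, by omega⟩
    have e1 : k + 2 - (j : ℕ) = r + 3 := by omega
    have e2 : k + 1 - (j : ℕ) = r + 2 := by omega
    have e3 : k + 2 - (i : ℕ) = r + d + 4 := by omega
    have e4 : k + 1 - (i : ℕ) = r + d + 3 := by omega
    unfold eAdj
    rw [e1, e2, e3, e4, hd]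
    obtain ⟨P, hP⟩ : ∃ P, (r + 3) * (r + 2) = 2 * P := by
      have := Nat.even_mul_pred_self (r + 3)
      exact even_iff_two_dvd.1 this
    obtain ⟨Q, hQ⟩ : ∃ Q, (r + d + 4) * (r + d + 3) = 2 * Q := by
      have := Nat.even_mul_pred_self (r + d + 4)
      exact even_iff_two_dvd.1 this
    rw [hP, hQ, Nat.mul_div_cancel_left _ (by norm_num), Nat.mul_div_cancel_left _ (by norm_num)]
    nlinarith
  have hbig : 2 * q ≤ q * ((2 * q + 1) * m) := by
    have h1 : 2 ≤ (2 * q + 1) * m := by nlinarith
    calc 2 * q = q * 2 := by ring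
      _ ≤ _ := Nat.mul_le_mul_left _ h1
  have hN : N < q * ((2 * q + 1) * m) := by
    have h1 : m ≤ (2 * q + 1) * m := Nat.le_mul_of_pos_left _ (by omega)
    have h2 : (2 * q + 1) * m ≤ q * ((2 * q + 1) * m) := Nat.le_mul_of_pos_left _ (by omega)
    omega
  refine ⟨aT, flip_of_real hall ?_ ?_ ?_, ⟨⟨q - 1, by omega⟩, ?_, ?_⟩, ⟨⟨k - 1, by omega⟩, ?_, ?_⟩⟩
  · intro i j hij
    rw [ha_eq i, ha_eq j]
    have hij' : (i : ℕ) < (j : ℕ) := hij
    by_cases h1 : (i : ℕ) < q
    · by_cases h2 : (j : ℕ) < q
      · simp only [h1, h2, if_true]; omega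
      · simp only [h1, h2, if_true, if_false]
        omega
    · have h2 : ¬ (j : ℕ) < q := by omega
      simp only [h1, h2, if_false]; omega
  · intro i j hij
    rw [he_eq i, he_eq j]
    have hij' : (i : ℕ) < (j : ℕ) := hij
    have hadj' := hadj i j hij
    by_cases h1 : (i : ℕ) < q
    · by_cases h2 : (j : ℕ) < q
      · simp only [h1, h2, if_true]; omega
      · simp only [h1, h2, if_true, if_false]
        have : q * ((2 * q + 1) ^ 2 * m) ≤ (1 + (k - q) * m) * ((2 * q + 1) * q) := by
          have h3 : (2 * q + 1) * m ≤ 1 + (k - q) * m := by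
            have : (2 * q + 1) * m ≤ (k - q) * m := Nat.mul_le_mul_right _ (by omega)
            omega
          calc q * ((2 * q + 1) ^ 2 * m) = ((2 * q + 1) * m) * ((2 * q + 1) * q) := by ring
            _ ≤ _ := Nat.mul_le_mul_right _ h3
        omega
    · have h2 : ¬ (j : ℕ) < q := by omega
      simp only [h1, h2, if_false]; omega
  · intro j
    rw [ha_eq j]
    split_ifs <;> omega
  · simp only; omega
  · rw [ha_eq]
    simp only
    rw [if_pos (by omega)]
    omega
  · simp only; omega
  · rw [ha_eq]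
    simp only
    rw [if_neg (by omega)]
    omega

end Pool.Agent.Work.MP_1aba1b_co
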