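import Pool.Agent.Work.MP_1aba1b_co.Upper

namespace Pool.Agent.Work.MP_1aba1b_co

open Finset Classical

lemma card_lt (k q : ℕ) (h : q ≤ k) :
    (univ.filter (fun j : Fin k => (j : ℕ) < q)).card = q := by
  rw [Fin.card_filter_val_lt]
  exact min_eq_right h

lemma card_not_lt (k q : ℕ) (h : q ≤ k) :
    (univ.filter (fun j : Fin k => ¬ (j : ℕ) < q)).card = k - q := by
  have h1 := Finset.card_filter_add_card_filter_not (s := (univ : Finset (Fin k)))
    (fun j : Fin k => (j : ℕ) < q)
  rw [card_lt k q h, Finset.card_univ, Fintype.card_fin] at h1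
  omega

theorem upper {k q : ℕ} (hk : 4 ≤ k) (hq : 1 ≤ q) (hqk : q ≤ k - 1)
    (h : PositionBounded k q) : 3 * q + 1 ≤ k := by
  by_contra hcon
  have hcon : k ≤ 3 * q := by omega
  obtain ⟨h, hpos, H⟩ := h
  obtain ⟨a, ⟨hmono, hapos, V, hfin, hne, G, f, hdeg, hanti⟩, ⟨i0, hi0, hai0⟩, ⟨il, hil, hail⟩⟩ :=
    H (3 * (q * h) ^ 2 + 4 * (q * h))
  haveI := Fintype.ofFinite V
  set D := CG.of G f with hD
  have hdeg' : ∀ v j, (univ.filter fun w => D.C j v w).card = a j := by
    intro v j
    rw [← hdeg v j, colDeg_eq]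
  -- bounded degrees
  have hM : ∀ v, (univ.filter fun x => Bd D q v x).card ≤ q * h := by
    intro v
    have hsub : (univ.filter fun x => Bd D q v x) ⊆
        (univ.filter (fun j : Fin k => (j : ℕ) < q)).biUnion
          (fun j => univ.filter fun x => D.C j v x) := by
      intro x hx
      simp only [mem_filter, mem_univ, true_and, Bd] at hx
      obtain ⟨i, hi, hc⟩ := hx
      simp only [mem_biUnion, mem_filter, mem_univ, true_and]
      exact ⟨i, hi, hc⟩
    calc (univ.filter fun x => Bd D q v x).card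
        ≤ _ := Finset.card_le_card hsub
      _ ≤ ∑ j ∈ univ.filter (fun j : Fin k => (j : ℕ) < q),
            (univ.filter fun x => D.C j v x).card := Finset.card_biUnion_le
      _ ≤ ∑ j ∈ univ.filter (fun j : Fin k => (j : ℕ) < q), h := by
            refine Finset.sum_le_sum fun j hj => ?_
            rw [hdeg' v j, ← hai0]
            apply hmono.monotone
            simp only [mem_filter, mem_univ, true_and] at hj
            exact Fin.le_def.2 (by omega)
      _ = q * h := by
            rw [Finset.sum_const, card_lt k q (by omega), smul_eq_mul]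
  obtain ⟨v, hv⟩ := exists_vertex D q (q * h) hM
  have hO : ∀ j, (∑ x, ∑ y, if D.C j x y ∧ D.A v x ∧ D.A v y then 1 else 0) + 2 * a j
      = 2 * closedCount G f j v := by
    intro j
    rw [closedCount_eq, ← hD, closed_open, hdeg' v j]
  set O : Fin k → ℕ := fun j => ∑ x, ∑ y, if D.C j x y ∧ D.A v x ∧ D.A v y then 1 else 0 with hOdef
  set E := closedCount G f i0 v with hE
  have hlow : ∀ j ∈ univ.filter (fun j : Fin k => (j : ℕ) < q), 2 * E ≤ O j + 2 * h := by
    intro j hj
    simp only [mem_filter, mem_univ, true_and] at hj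
    have hle : j ≤ i0 := Fin.le_def.2 (by omega)
    have h1 : E ≤ closedCount G f j v := (hanti v).antitone hle
    have h2 : a j ≤ h := by rw [← hai0]; exact hmono.monotone hle
    have h3 := hO j
    change O j + 2 * a j = _ at h3
    omega
  have hhigh : ∀ j ∈ univ.filter (fun j : Fin k => ¬ (j : ℕ) < q), O j + 2 * a j ≤ 2 * E := by
    intro j hj
    simp only [mem_filter, mem_univ, true_and] at hj
    have hlt : i0 < j := Fin.lt_def.2 (by omega)
    have h1 : closedCount G f j v < E := hanti v hlt
    have h3 := hO j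
    change O j + 2 * a j = _ at h3
    omega
  have s1 := Finset.sum_le_sum hlow
  have s2 := Finset.sum_le_sum hhigh
  rw [Finset.sum_add_distrib, Finset.sum_const, Finset.sum_const, card_lt k q (by omega),
    smul_eq_mul, smul_eq_mul] at s1
  rw [Finset.sum_add_distrib, Finset.sum_const, card_not_lt k q (by omega),
    smul_eq_mul] at s2
  have s3 : 2 * a il ≤ ∑ j ∈ univ.filter (fun j : Fin k => ¬ (j : ℕ) < q), 2 * a j := by
    apply Finset.single_le_sum (f := fun j => 2 * a j) (fun _ _ => Nat.zero_le _)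
    simp only [mem_filter, mem_univ, true_and]
    omega
  change 2 * (∑ j ∈ univ.filter (fun j : Fin k => (j : ℕ) < q), O j) ≤
    (∑ j ∈ univ.filter (fun j : Fin k => ¬ (j : ℕ) < q), O j) + 3 * (q * h) ^ 2 at hv
  have s4 : (k - q) * (2 * E) ≤ (2 * q) * (2 * E) := Nat.mul_le_mul_right _ (by omega)
  nlinarith [s1, s2, s3, s4, hv, hail]

end Pool.Agent.Work.MP_1aba1b_co
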