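import Pool.Agent.Work.MP_1aba1b_co.Defs

namespace Pool.Agent.Work.MP_1aba1b_co

open Finset Classical

/-- A coloured graph as a family of relations. -/
structure CG (k : ℕ) (V : Type) where
  C : Fin k → V → V → Prop
  symm : ∀ i x y, C i x y → C i y x
  irrefl : ∀ i x, ¬ C i x x
  disj : ∀ i j x y, C i x y → C j x y → i = j

namespace CG

variable {k : ℕ} {V : Type} (D : CG k V)

/-- adjacency in some colour -/
def A (x y : V) : Prop := ∃ i, D.C i x y

/-- closed neighbourhood relation -/
def N (x y : V) : Prop := x = y ∨ D.A x y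

lemma A_symm {x y : V} (h : D.A x y) : D.A y x := by
  obtain ⟨i, h⟩ := h
  exact ⟨i, D.symm _ _ _ h⟩

lemma A_irrefl (x : V) : ¬ D.A x x := fun ⟨i, h⟩ => D.irrefl i x h

/-- The coloured graph attached to a graph with an edge-colouring. -/
def of (G : SimpleGraph V) (f : G.edgeSet → Fin k) : CG k V where
  C j x y := ∃ h : G.Adj x y, f ⟨s(x, y), h⟩ = j
  symm := by
    rintro i x y ⟨h, rfl⟩
    refine ⟨h.symm, ?_⟩
    congr 2
    exact Sym2.eq_swap
  irrefl := by
    rintro i x ⟨h, _⟩
    exact G.loopless.irrefl x h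
  disj := by
    rintro i j x y ⟨h, rfl⟩ ⟨h', h''⟩
    exact h''

lemma of_A (G : SimpleGraph V) (f : G.edgeSet → Fin k) (x y : V) :
    (of G f).A x y ↔ G.Adj x y := by
  constructor
  · rintro ⟨i, h, _⟩
    exact h
  · intro h
    exact ⟨f ⟨s(x, y), h⟩, h, rfl⟩

end CG

variable {k : ℕ} {V : Type}

lemma colDeg_eq [Fintype V] (G : SimpleGraph V) (f : G.edgeSet → Fin k) (j : Fin k) (v : V) :
    colDeg G f j v = (univ.filter fun w => (CG.of G f).C j v w).card := by
  unfold colDeg
  rw [← Set.ncard_coe_finset]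
  symm
  refine Set.ncard_congr
    (fun w hw => ⟨s(v, w), by
      simp only [coe_filter, mem_univ, true_and, Set.mem_ofPred_eq] at hw
      exact hw.1⟩) ?_ ?_ ?_
  · intro w hw
    simp only [coe_filter, mem_univ, true_and, Set.mem_ofPred_eq] at hw
    obtain ⟨h, hj⟩ := hw
    exact ⟨hj, Sym2.mem_mk_left v w⟩
  · intro w w' hw hw' h
    simp only [Subtype.mk.injEq] at h
    exact Sym2.congr_right.mp h
  · rintro ⟨e, he⟩ ⟨hj, hv⟩
    obtain ⟨w, rfl⟩ : ∃ w, e = s(v, w) := by
      exact (Sym2.mem_iff_exists.mp hv)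
    refine ⟨w, ?_, rfl⟩
    simp only [coe_filter, mem_univ, true_and, Set.mem_ofPred_eq]
    exact ⟨he, hj⟩

lemma closedCount_eq [Fintype V] (G : SimpleGraph V) (f : G.edgeSet → Fin k) (j : Fin k) (v : V) :
    2 * closedCount G f j v = (univ.filter fun p : V × V => (CG.of G f).C j p.1 p.2 ∧
      (CG.of G f).N v p.1 ∧ (CG.of G f).N v p.2).card := by
  set D := CG.of G f with hD
  let H : SimpleGraph V :=
    { Adj := fun x y => D.C j x y ∧ D.N v x ∧ D.N v y
      symm := ⟨fun x y h => ⟨D.symm _ _ _ h.1, h.2.2, h.2.1⟩⟩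
      loopless := ⟨fun x h => D.irrefl _ _ h.1⟩ }
  have h1 := H.sum_degrees_eq_twice_card_edges
  have h2 : (univ.filter fun p : V × V => D.C j p.1 p.2 ∧ D.N v p.1 ∧ D.N v p.2).card
      = ∑ x, H.degree x := by
    rw [← Finset.univ_product_univ, Finset.card_filter, Finset.sum_product]
    refine Finset.sum_congr rfl fun x _ => ?_
    rw [← SimpleGraph.card_neighborFinset_eq_degree, ← Finset.card_filter]
    congr 1
    ext y
    simp [H]
  have h3 : closedCount G f j v = H.edgeFinset.card := by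
    unfold closedCount
    rw [← Set.ncard_coe_finset, SimpleGraph.coe_edgeFinset]
    refine Set.ncard_congr (fun e _ => (e : Sym2 V)) ?_ ?_ ?_
    · rintro ⟨e, he⟩ ⟨hj, hv⟩
      induction e using Sym2.ind with
      | _ x y =>
        simp only [SimpleGraph.mem_edgeSet] at he ⊢
        refine ⟨⟨he, hj⟩, ?_, ?_⟩
        · rcases hv x (Sym2.mem_mk_left x y) with h | h
          · exact Or.inl h.symm
          · exact Or.inr ((CG.of_A G f _ _).2 h)
        · rcases hv y (Sym2.mem_mk_right x y) with h | h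
          · exact Or.inl h.symm
          · exact Or.inr ((CG.of_A G f _ _).2 h)
    · rintro ⟨e, he⟩ ⟨e', he'⟩ _ _ h
      simpa using h
    · intro e he
      induction e using Sym2.ind with
      | _ x y =>
        simp only [SimpleGraph.mem_edgeSet] at he
        obtain ⟨⟨h, hj⟩, hx, hy⟩ := he
        refine ⟨⟨s(x, y), h⟩, ⟨hj, ?_⟩, rfl⟩
        intro w hw
        rcases Sym2.mem_iff.1 hw with rfl | rfl
        · rcases hx with h | h
          · exact Or.inl h.symm
          · exact Or.inr ((CG.of_A G f _ _).1 h)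
        · rcases hy with h | h
          · exact Or.inl h.symm
          · exact Or.inr ((CG.of_A G f _ _).1 h)
  rw [h2, h1, h3]

end Pool.Agent.Work.MP_1aba1b_co
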