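import Mathlib

/-!
# Flip colourings: definitions

All graphs are finite and simple.  An edge-colouring of `G` with `k` colours is a map
`f : G.edgeSet → Fin k`; colour `j` of the problem (with `j` in `{1,...,k}`) is the element of
`Fin k` whose value is `j - 1`.
-/

namespace Pool.Agent.Work.MP_1aba1b_co

/-- The number of edges of colour `j` incident with the vertex `v`. -/
noncomputable def colDeg {V : Type} {k : ℕ} (G : SimpleGraph V) (f : G.edgeSet → Fin k)
    (j : Fin k) (v : V) : ℕ :=
  {e : G.edgeSet | f e = j ∧ v ∈ (e : Sym2 V)}.ncard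

/-- `e_j[v]`: the number of edges of colour `j` having both endpoints in the closed
neighbourhood `N[v]`. -/
noncomputable def closedCount {V : Type} {k : ℕ} (G : SimpleGraph V) (f : G.edgeSet → Fin k)
    (j : Fin k) (v : V) : ℕ :=
  {e : G.edgeSet | f e = j ∧ ∀ w ∈ (e : Sym2 V), w = v ∨ G.Adj v w}.ncard

/-- `f` is a flip colouring of `G` with degrees `a`: every vertex is incident with exactly `a j`
edges of colour `j`, and `e_1[v] > e_2[v] > ... > e_k[v]` for every vertex `v`. -/
def IsFlipColouring {V : Type} {k : ℕ} (G : SimpleGraph V) (f : G.edgeSet → Fin k)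
    (a : Fin k → ℕ) : Prop :=
  (∀ v j, colDeg G f j v = a j) ∧ (∀ v, StrictAnti fun j => closedCount G f j v)

/-- `a = (a_1, ..., a_k)` is a `k`-flip sequence: a strictly increasing sequence of positive
integers such that some (finite, simple, nonempty) graph is an `(a_1, ..., a_k)`-flip graph. -/
def IsFlipSequence (k : ℕ) (a : Fin k → ℕ) : Prop :=
  StrictMono a ∧ (∀ j, 0 < a j) ∧
    ∃ (V : Type) (_ : Finite V) (_ : Nonempty V) (G : SimpleGraph V) (f : G.edgeSet → Fin k),
      IsFlipColouring G f a

/-- Position `q` (with `1 ≤ q ≤ k - 1`) is bounded: there is a positive integer `h` such that for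
every `N` there is a `k`-flip sequence with `a_q = h` and `a_k > N`. -/
def PositionBounded (k q : ℕ) : Prop :=
  ∃ h : ℕ, 0 < h ∧ ∀ N : ℕ, ∃ a : Fin k → ℕ, IsFlipSequence k a ∧
    (∃ i : Fin k, (i : ℕ) + 1 = q ∧ a i = h) ∧ (∃ i : Fin k, (i : ℕ) + 1 = k ∧ N < a i)

end Pool.Agent.Work.MP_1aba1b_co
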