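import Pool.Agent.Work.MP_1aba1b_co.Basic

namespace Pool.Agent.Work.MP_1aba1b_co

open Finset Classical

variable {k : ℕ}

/-- number of `w` with `C j v w` -/
noncomputable def dg {V : Type} [Fintype V] (D : CG k V) (j : Fin k) (v : V) : ℕ :=
  (univ.filter fun w => D.C j v w).card

/-- number of ordered coloured pairs inside the closed neighbourhood -/
noncomputable def pr {V : Type} [Fintype V] (D : CG k V) (j : Fin k) (v : V) : ℕ :=
  (univ.filter fun p : V × V => D.C j p.1 p.2 ∧ D.N v p.1 ∧ D.N v p.2).card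

/-- `(a, e)` is realised by a coloured graph. -/
def Real (k : ℕ) (a e : Fin k → ℕ) : Prop :=
  ∃ (V : Type) (_ : Fintype V) (_ : Nonempty V) (D : CG k V),
    ∀ v j, dg D j v = a j ∧ pr D j v = 2 * e j

lemma real_zero : Real k 0 0 := by
  refine ⟨Unit, inferInstance, inferInstance,
    ⟨fun _ _ _ => False, fun _ _ _ h => h, fun _ _ h => h, fun _ _ _ _ h => h.elim⟩, ?_⟩
  intro v j
  simp [dg, pr]

/-- the cartesian product -/
def boxD {V W : Type} (D : CG k V) (E : CG k W) : CG k (V × W) where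
  C j p p' := (p.2 = p'.2 ∧ D.C j p.1 p'.1) ∨ (p.1 = p'.1 ∧ E.C j p.2 p'.2)
  symm := by
    rintro i ⟨x, y⟩ ⟨x', y'⟩ (⟨h1, h2⟩ | ⟨h1, h2⟩)
    · exact Or.inl ⟨h1.symm, D.symm _ _ _ h2⟩
    · exact Or.inr ⟨h1.symm, E.symm _ _ _ h2⟩
  irrefl := by
    rintro i ⟨x, y⟩ (⟨h1, h2⟩ | ⟨h1, h2⟩)
    · exact D.irrefl _ _ h2
    · exact E.irrefl _ _ h2
  disj := by
    rintro i j ⟨x, y⟩ ⟨x', y'⟩ (⟨h1, h2⟩ | ⟨h1, h2⟩) (⟨h3, h4⟩ | ⟨h3, h4⟩)
    · exact D.disj _ _ _ _ h2 h4
    · simp only at h1 h2 h3 h4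
      subst h1
      exact absurd h4 (E.irrefl _ _)
    · simp only at h1 h2 h3 h4
      subst h1
      exact absurd h4 (D.irrefl _ _)
    · exact E.disj _ _ _ _ h2 h4

lemma boxD_N {V W : Type} (D : CG k V) (E : CG k W) (x x' : V) (y y' : W) :
    (boxD D E).N (x, y) (x', y') ↔ (y = y' ∧ D.N x x') ∨ (x = x' ∧ E.N y y') := by
  constructor
  · rintro (h | ⟨i, (⟨h1, h2⟩ | ⟨h1, h2⟩)⟩)
    · simp only [Prod.mk.injEq] at h
      exact Or.inl ⟨h.2, Or.inl h.1⟩
    · exact Or.inl ⟨h1, Or.inr ⟨i, h2⟩⟩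
    · exact Or.inr ⟨h1, Or.inr ⟨i, h2⟩⟩
  · rintro (⟨rfl, (rfl | ⟨i, h⟩)⟩ | ⟨rfl, (rfl | ⟨i, h⟩)⟩)
    · exact Or.inl rfl
    · exact Or.inr ⟨i, Or.inl ⟨rfl, h⟩⟩
    · exact Or.inl rfl
    · exact Or.inr ⟨i, Or.inr ⟨rfl, h⟩⟩

lemma real_add {a e a' e' : Fin k → ℕ} (h : Real k a e) (h' : Real k a' e') :
    Real k (a + a') (e + e') := by
  obtain ⟨V, _, _, D, hD⟩ := h
  obtain ⟨W, _, _, E, hE⟩ := h'
  refine ⟨V × W, inferInstance, inferInstance, boxD D E, ?_⟩
  rintro ⟨x, y⟩ j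
  obtain ⟨hd1, hp1⟩ := hD x j
  obtain ⟨hd2, hp2⟩ := hE y j
  constructor
  · -- degrees
    have : (univ.filter fun w => (boxD D E).C j (x, y) w)
        = (univ.filter fun w => D.C j x w).map ⟨fun w => (w, y), fun _ _ h => by simpa using h⟩
          ∪ (univ.filter fun w => E.C j y w).map ⟨fun w => (x, w), fun _ _ h => by simpa using h⟩ := by
      ext ⟨x', y'⟩
      simp only [boxD, mem_filter, mem_univ, true_and, mem_union, mem_map,
        Function.Embedding.coeFn_mk, Prod.mk.injEq]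
      constructor
      · rintro (⟨h1, h2⟩ | ⟨h1, h2⟩)
        · exact Or.inl ⟨x', h2, rfl, h1⟩
        · exact Or.inr ⟨y', h2, h1, rfl⟩
      · rintro (⟨w, h1, rfl, h2⟩ | ⟨w, h1, h2, rfl⟩)
        · exact Or.inl ⟨h2, h1⟩
        · exact Or.inr ⟨h2, h1⟩
    rw [dg, this, Finset.card_union_of_disjoint, Finset.card_map, Finset.card_map, Pi.add_apply,
      ← hd1, ← hd2, dg, dg]
    rw [Finset.disjoint_left]
    rintro ⟨x', y'⟩ h1 h2
    simp only [mem_filter, mem_univ, true_and, mem_map,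
        Function.Embedding.coeFn_mk, Prod.mk.injEq] at h1 h2
    obtain ⟨w, h3, rfl, rfl⟩ := h1
    obtain ⟨w', h4, rfl, rfl⟩ := h2
    exact D.irrefl _ _ h3
  · have : (univ.filter fun p : (V × W) × (V × W) => (boxD D E).C j p.1 p.2 ∧
          (boxD D E).N (x, y) p.1 ∧ (boxD D E).N (x, y) p.2)
        = (univ.filter fun p : V × V => D.C j p.1 p.2 ∧ D.N x p.1 ∧ D.N x p.2).map
            ⟨fun p => ((p.1, y), (p.2, y)), fun _ _ h => by
              simp only [Prod.mk.injEq, and_true] at h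
              exact Prod.ext h.1 h.2⟩
          ∪ (univ.filter fun p : W × W => E.C j p.1 p.2 ∧ E.N y p.1 ∧ E.N y p.2).map
            ⟨fun p => ((x, p.1), (x, p.2)), fun _ _ h => by
              simp only [Prod.mk.injEq, true_and] at h
              exact Prod.ext h.1 h.2⟩ := by
      ext ⟨⟨x1, y1⟩, ⟨x2, y2⟩⟩
      simp only [mem_filter, mem_univ, true_and, mem_union, mem_map,
        Function.Embedding.coeFn_mk, Prod.mk.injEq, Prod.exists, boxD_N]
      constructor
      · rintro ⟨(⟨h1, h2⟩ | ⟨h1, h2⟩), h3, h4⟩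
        · simp only at h1 h2
          subst h1
          have hy : y = y1 := by
            rcases h3 with ⟨h3, _⟩ | ⟨h3, _⟩
            · exact h3
            rcases h4 with ⟨h4, _⟩ | ⟨h4, _⟩
            · exact h4
            subst h3
            subst h4
            exact absurd h2 (D.irrefl _ _)
          subst hy
          refine Or.inl ⟨x1, x2, ⟨h2, ?_, ?_⟩, ⟨rfl, rfl⟩, rfl, rfl⟩
          · rcases h3 with ⟨_, h3⟩ | ⟨h3, _⟩
            · exact h3
            · exact Or.inl h3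
          · rcases h4 with ⟨_, h4⟩ | ⟨h4, _⟩
            · exact h4
            · exact Or.inl h4
        · simp only at h1 h2
          subst h1
          have hx : x = x1 := by
            rcases h3 with ⟨h3, _⟩ | ⟨h3, _⟩
            · rcases h4 with ⟨h4, _⟩ | ⟨h4, _⟩
              · subst h3
                subst h4
                exact absurd h2 (E.irrefl _ _)
              · exact h4
            · exact h3
          subst hx
          refine Or.inr ⟨y1, y2, ⟨h2, ?_, ?_⟩, ⟨rfl, rfl⟩, rfl, rfl⟩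
          · rcases h3 with ⟨h3, _⟩ | ⟨_, h3⟩
            · exact Or.inl h3
            · exact h3
          · rcases h4 with ⟨h4, _⟩ | ⟨_, h4⟩
            · exact Or.inl h4
            · exact h4
      · rintro (⟨u, w, ⟨h1, h2, h3⟩, ⟨rfl, rfl⟩, rfl, rfl⟩ | ⟨u, w, ⟨h1, h2, h3⟩, ⟨rfl, rfl⟩, rfl, rfl⟩)
        · exact ⟨Or.inl ⟨rfl, h1⟩, Or.inl ⟨rfl, h2⟩, Or.inl ⟨rfl, h3⟩⟩
        · exact ⟨Or.inr ⟨rfl, h1⟩, Or.inr ⟨rfl, h2⟩, Or.inr ⟨rfl, h3⟩⟩
    rw [pr, this, Finset.card_union_of_disjoint, Finset.card_map, Finset.card_map, Pi.add_apply,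
      mul_add, ← hp1, ← hp2, pr, pr]
    rw [Finset.disjoint_left]
    rintro ⟨⟨x1, y1⟩, ⟨x2, y2⟩⟩ h1 h2
    simp only [mem_filter, mem_univ, true_and, mem_map,
        Function.Embedding.coeFn_mk, Prod.mk.injEq, Prod.exists] at h1 h2
    obtain ⟨u, w, ⟨h3, -, -⟩, ⟨rfl, rfl⟩, rfl, rfl⟩ := h1
    obtain ⟨u', w', ⟨h4, -, -⟩, ⟨h5, rfl⟩, h6, rfl⟩ := h2
    rw [← h5, ← h6] at h3
    exact D.irrefl _ _ h3

lemma card_N {V : Type} [Fintype V] (D : CG k V) (a : Fin k → ℕ) (v : V)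
    (h : ∀ j, dg D j v = a j) : (univ.filter fun x => D.N v x).card = 1 + ∑ j, a j := by
  have h1 : (univ.filter fun x => D.N v x)
      = insert v (univ.biUnion fun j => univ.filter fun x => D.C j v x) := by
    ext x
    simp only [mem_filter, mem_univ, true_and, mem_insert, mem_biUnion, CG.N, CG.A]
    constructor
    · rintro (h | h)
      · exact Or.inl h.symm
      · exact Or.inr h
    · rintro (h | h)
      · exact Or.inl h.symm
      · exact Or.inr h
  rw [h1, Finset.card_insert_of_notMem, Finset.card_biUnion]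
  · rw [add_comm]
    congr 1
    exact Finset.sum_congr rfl fun j _ => h j
  · intro i _ j _ hij
    rw [Function.onFun, Finset.disjoint_left]
    intro x hx hx'
    simp only [mem_filter, mem_univ, true_and] at hx hx'
    exact hij (D.disj _ _ _ _ hx hx')
  · simp only [mem_biUnion, mem_filter, mem_univ, true_and, not_exists]
    intro j
    exact D.irrefl _ _

/-- the lexicographic product with a complete graph all of whose edges have colour `j0` -/
def lexD {V : Type} (D : CG k V) (j0 : Fin k) (κ : ℕ) : CG k (V × Fin κ) where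
  C j p p' := (D.C j p.1 p'.1) ∨ (p.1 = p'.1 ∧ p.2 ≠ p'.2 ∧ j = j0)
  symm := by
    rintro i ⟨x, y⟩ ⟨x', y'⟩ (h | ⟨h1, h2, h3⟩)
    · exact Or.inl (D.symm _ _ _ h)
    · exact Or.inr ⟨h1.symm, fun h => h2 h.symm, h3⟩
  irrefl := by
    rintro i ⟨x, y⟩ (h | ⟨h1, h2, h3⟩)
    · exact D.irrefl _ _ h
    · exact h2 rfl
  disj := by
    rintro i j ⟨x, y⟩ ⟨x', y'⟩ (h | ⟨h1, h2, h3⟩) (h' | ⟨h1', h2', h3'⟩)
    · exact D.disj _ _ _ _ h h'
    · simp only at h h1'
      subst h1'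
      exact absurd h (D.irrefl _ _)
    · simp only at h' h1
      subst h1
      exact absurd h' (D.irrefl _ _)
    · rw [h3, h3']

lemma lexD_N {V : Type} (D : CG k V) (j0 : Fin k) (κ : ℕ) (x x' : V) (y y' : Fin κ) :
    (lexD D j0 κ).N (x, y) (x', y') ↔ D.N x x' := by
  constructor
  · rintro (h | ⟨i, (h | ⟨h1, h2, h3⟩)⟩)
    · simp only [Prod.mk.injEq] at h
      exact Or.inl h.1
    · exact Or.inr ⟨i, h⟩
    · exact Or.inl h1
  · rintro (rfl | ⟨i, h⟩)
    · by_cases hy : y = y'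
      · subst hy
        exact Or.inl rfl
      · exact Or.inr ⟨j0, Or.inr ⟨rfl, hy, rfl⟩⟩
    · exact Or.inr ⟨i, Or.inl h⟩

lemma card_ne (κ : ℕ) (y : Fin κ) : (univ.filter fun w : Fin κ => y ≠ w).card = κ - 1 := by
  rw [Finset.filter_ne, Finset.card_erase_of_mem (mem_univ _), Finset.card_univ, Fintype.card_fin]

lemma card_offdiag (κ : ℕ) :
    (univ.filter fun p : Fin κ × Fin κ => p.1 ≠ p.2).card = κ * (κ - 1) := by
  rw [← Finset.univ_product_univ, Finset.card_filter, Finset.sum_product]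
  simp only [← Finset.card_filter, card_ne]
  simp

lemma real_lex {a e : Fin k → ℕ} (h : Real k a e) (j0 : Fin k) (κ : ℕ) (hκ : 1 ≤ κ) :
    Real k (fun j => κ * a j + if j = j0 then κ - 1 else 0)
      (fun j => κ ^ 2 * e j + if j = j0 then (1 + ∑ i, a i) * (κ * (κ - 1) / 2) else 0) := by
  obtain ⟨V, _, _, D, hD⟩ := h
  have : Nonempty (Fin κ) := ⟨⟨0, hκ⟩⟩
  refine ⟨V × Fin κ, inferInstance, inferInstance, lexD D j0 κ, ?_⟩
  rintro ⟨x, y⟩ j
  obtain ⟨hd1, hp1⟩ := hD x j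
  have hN := card_N D a x (fun j => (hD x j).1)
  constructor
  · have : (univ.filter fun w => (lexD D j0 κ).C j (x, y) w)
        = ((univ.filter fun w => D.C j x w) ×ˢ (univ : Finset (Fin κ)))
          ∪ (univ.filter fun w : Fin κ => y ≠ w ∧ j = j0).map
            ⟨fun w => (x, w), fun _ _ h => by simpa using h⟩ := by
      ext ⟨x', y'⟩
      simp only [lexD, mem_filter, mem_univ, true_and, mem_union, mem_map, mem_product, and_true,
        Function.Embedding.coeFn_mk, Prod.mk.injEq]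
      constructor
      · rintro (h | ⟨h1, h2, h3⟩)
        · exact Or.inl h
        · exact Or.inr ⟨y', ⟨h2, h3⟩, h1, rfl⟩
      · rintro (h | ⟨w, ⟨h2, h3⟩, h1, rfl⟩)
        · exact Or.inl h
        · exact Or.inr ⟨h1, h2, h3⟩
    rw [dg, this, Finset.card_union_of_disjoint, Finset.card_map, Finset.card_product]
    · rw [dg] at hd1
      rw [hd1, Finset.card_univ, Fintype.card_fin]
      by_cases hj : j = j0
      · simp only [hj, and_true, if_true]
        rw [card_ne]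
        ring
      · simp [hj, mul_comm]
    · rw [Finset.disjoint_left]
      rintro ⟨x', y'⟩ h1 h2
      simp only [mem_filter, mem_univ, true_and, mem_map, mem_product, and_true,
          Function.Embedding.coeFn_mk, Prod.mk.injEq] at h1 h2
      obtain ⟨w', h4, rfl, rfl⟩ := h2
      exact D.irrefl _ _ h1
  · have : (univ.filter fun p : (V × Fin κ) × (V × Fin κ) => (lexD D j0 κ).C j p.1 p.2 ∧
          (lexD D j0 κ).N (x, y) p.1 ∧ (lexD D j0 κ).N (x, y) p.2)
        = (((univ.filter fun p : V × V => D.C j p.1 p.2 ∧ D.N x p.1 ∧ D.N x p.2)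
            ×ˢ (univ : Finset (Fin κ × Fin κ))).map
            ⟨fun p => ((p.1.1, p.2.1), (p.1.2, p.2.2)), fun p p' h => by
              obtain ⟨⟨p1, p2⟩, ⟨p3, p4⟩⟩ := p
              obtain ⟨⟨q1, q2⟩, ⟨q3, q4⟩⟩ := p'
              simp only [Prod.mk.injEq] at h ⊢
              tauto⟩)
          ∪ (((univ.filter fun z : V => D.N x z)
            ×ˢ (univ.filter fun p : Fin κ × Fin κ => p.1 ≠ p.2 ∧ j = j0)).map
            ⟨fun p => ((p.1, p.2.1), (p.1, p.2.2)), fun p p' h => by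
              obtain ⟨p1, ⟨p3, p4⟩⟩ := p
              obtain ⟨q1, ⟨q3, q4⟩⟩ := p'
              simp only [Prod.mk.injEq] at h ⊢
              tauto⟩) := by
      ext ⟨⟨x1, y1⟩, ⟨x2, y2⟩⟩
      simp only [mem_filter, mem_univ, true_and, mem_union, mem_map, mem_product, and_true,
        Function.Embedding.coeFn_mk, Prod.mk.injEq, Prod.exists, lexD_N]
      constructor
      · rintro ⟨(h | ⟨h1, h2, h5⟩), h3, h4⟩
        · exact Or.inl ⟨x1, x2, y1, y2, ⟨h, h3, h4⟩, ⟨rfl, rfl⟩, rfl, rfl⟩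
        · simp only at h1 h2
          subst h1
          exact Or.inr ⟨x1, y1, y2, ⟨h3, h2, h5⟩, ⟨rfl, rfl⟩, rfl, rfl⟩
      · rintro (⟨u1, u2, w1, w2, ⟨h, h3, h4⟩, ⟨rfl, rfl⟩, rfl, rfl⟩ |
          ⟨u1, w1, w2, ⟨h3, h2, h5⟩, ⟨rfl, rfl⟩, rfl, rfl⟩)
        · exact ⟨Or.inl h, h3, h4⟩
        · exact ⟨Or.inr ⟨rfl, h2, h5⟩, h3, h3⟩
    rw [pr, this, Finset.card_union_of_disjoint, Finset.card_map, Finset.card_map,
      Finset.card_product, Finset.card_product]
    · rw [pr] at hp1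
      rw [hp1, hN, Finset.card_univ, Fintype.card_prod, Fintype.card_fin]
      obtain ⟨P, hP⟩ : ∃ P, κ * (κ - 1) = 2 * P :=
        even_iff_two_dvd.1 (Nat.even_mul_pred_self κ)
      by_cases hj : j = j0
      · simp only [hj, and_true, if_true]
        rw [card_offdiag, hP, Nat.mul_div_cancel_left P (by norm_num)]
        ring
      · simp only [hj, and_false, if_false, Finset.filter_false, Finset.card_empty]
        ring
    · rw [Finset.disjoint_left]
      rintro ⟨⟨x1, y1⟩, ⟨x2, y2⟩⟩ h1 h2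
      simp only [mem_filter, mem_univ, true_and, mem_map, mem_product, and_true,
          Function.Embedding.coeFn_mk, Prod.mk.injEq, Prod.exists] at h1 h2
      obtain ⟨u1, u2, w1, w2, ⟨h, h3, h4⟩, ⟨rfl, rfl⟩, rfl, rfl⟩ := h1
      obtain ⟨u', w1', w2', _, ⟨rfl, rfl⟩, h6, rfl⟩ := h2
      rw [← h6] at h
      exact D.irrefl _ _ h

end Pool.Agent.Work.MP_1aba1b_co
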