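import Pool.Agent.Work.MP_1aba1b_co.Basic

namespace Pool.Agent.Work.MP_1aba1b_co

open Finset Classical

variable {k : ℕ} {V : Type} [Fintype V]

/-- number of (ordered) open-neighbourhood pairs -/
lemma closed_open (D : CG k V) (j : Fin k) (v : V) :
    (univ.filter fun p : V × V => D.C j p.1 p.2 ∧ D.N v p.1 ∧ D.N v p.2).card
      = (∑ x, ∑ y, if D.C j x y ∧ D.A v x ∧ D.A v y then 1 else 0)
        + 2 * (univ.filter fun w => D.C j v w).card := by
  have e1 : (univ.filter fun p : V × V => D.C j p.1 p.2 ∧ D.N v p.1 ∧ D.N v p.2).card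
      = ∑ x, ∑ y, if D.C j x y ∧ D.N v x ∧ D.N v y then 1 else 0 := by
    rw [← Finset.univ_product_univ, Finset.card_filter, Finset.sum_product]
  have e2 : ∀ x y, (if D.C j x y ∧ D.N v x ∧ D.N v y then 1 else 0)
      = (if D.C j x y ∧ D.A v x ∧ D.A v y then 1 else 0)
        + (if v = x then (if D.C j v y then 1 else 0) else 0)
        + (if v = y then (if D.C j v x then 1 else 0) else 0) := by
    intro x y
    by_cases hx : v = x
    · subst hx
      by_cases hy : v = y
      · subst hy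
        have := D.irrefl j v
        simp [this]
      · have h1 := D.A_irrefl v
        have h2 : D.C j v y → D.N v y := fun h => Or.inr ⟨j, h⟩
        by_cases h : D.C j v y
        · have h4 : D.A v y := ⟨j, h⟩
          simp [h, h1, hy, CG.N, h4]
        · simp [h, hy]
    · by_cases hy : v = y
      · subst hy
        have h1 := D.A_irrefl v
        by_cases h : D.C j x v
        · have h' := D.symm _ _ _ h
          have h4 : D.A v x := ⟨j, h'⟩
          simp [h, h', h1, hx, h4, CG.N]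
        · have h' : ¬ D.C j v x := fun h' => h (D.symm _ _ _ h')
          simp [h, h', hx]
      · simp [hx, hy, CG.N]
  have e3 : ∑ x, ∑ y, (if v = x then (if D.C j v y then 1 else 0) else 0)
      = (univ.filter fun w => D.C j v w).card := by
    rw [Finset.sum_comm, Finset.card_filter]
    exact Finset.sum_congr rfl fun y _ => by simp
  have e4 : ∑ x, ∑ y, (if v = y then (if D.C j v x then 1 else 0) else 0)
      = (univ.filter fun w => D.C j v w).card := by
    rw [Finset.card_filter]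
    exact Finset.sum_congr rfl fun y _ => by simp
  rw [e1]
  simp only [e2, Finset.sum_add_distrib]
  rw [e3, e4]
  ring

/-- bounded adjacency -/
def Bd (D : CG k V) (q : ℕ) (x y : V) : Prop := ∃ i : Fin k, (i : ℕ) < q ∧ D.C i x y

omit [Fintype V] in
lemma Bd_symm (D : CG k V) (q : ℕ) {x y : V} (h : Bd D q x y) : Bd D q y x := by
  obtain ⟨i, hi, h⟩ := h
  exact ⟨i, hi, D.symm _ _ _ h⟩

omit [Fintype V] in
lemma sum_colour (D : CG k V) (P : Fin k → Prop) [DecidablePred P] (x y : V) :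
    (∑ j ∈ univ.filter P, if D.C j x y then 1 else 0)
      = if ∃ j, P j ∧ D.C j x y then 1 else 0 := by
  by_cases h : ∃ j, P j ∧ D.C j x y
  · obtain ⟨j, hj, hc⟩ := h
    rw [if_pos ⟨j, hj, hc⟩]
    rw [Finset.sum_eq_single_of_mem j (by simp [hj])]
    · simp [hc]
    · intro i _ hij
      have : ¬ D.C i x y := fun h => hij (D.disj _ _ _ _ h hc)
      simp [this]
  · rw [if_neg h]
    apply Finset.sum_eq_zero
    intro j hj
    have : ¬ D.C j x y := fun hc => h ⟨j, by simpa using hj, hc⟩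
    simp [this]

/-- the key triangle-counting inequality, summed over all vertices -/
lemma triangle_ineq (D : CG k V) (q : ℕ) :
    3 * (∑ v, ∑ x, ∑ y, if D.A x y ∧ D.A v x ∧ D.A v y ∧ Bd D q x y then 1 else 0)
      ≤ (∑ v, ∑ x, ∑ y, if D.A x y ∧ D.A v x ∧ D.A v y then 1 else 0)
        + 3 * ∑ v, (univ.filter fun x => Bd D q v x).card ^ 2 := by
  set T : V → V → V → ℕ := fun v x y => if D.A x y ∧ D.A v x ∧ D.A v y then 1 else 0 with hT
  set b : V → V → ℕ := fun x y => if Bd D q x y then 1 else 0 with hb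
  have Tsym1 : ∀ v x y, T v x y = T v y x := by
    intro v x y
    simp only [hT]
    congr 1
    rw [eq_iff_iff]
    constructor
    · rintro ⟨h1, h2, h3⟩; exact ⟨D.A_symm h1, h3, h2⟩
    · rintro ⟨h1, h2, h3⟩; exact ⟨D.A_symm h1, h3, h2⟩
  have Tsym2 : ∀ v x y, T v x y = T x v y := by
    intro v x y
    simp only [hT]
    congr 1
    rw [eq_iff_iff]
    constructor
    · rintro ⟨h1, h2, h3⟩; exact ⟨h3, D.A_symm h2, h1⟩
    · rintro ⟨h1, h2, h3⟩; exact ⟨h3, D.A_symm h2, h1⟩
  have bsym : ∀ x y, b x y = b y x := by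
    intro x y
    simp only [hb]
    congr 1
    rw [eq_iff_iff]
    exact ⟨Bd_symm D q, Bd_symm D q⟩
  have L0 : (∑ v, ∑ x, ∑ y, if D.A x y ∧ D.A v x ∧ D.A v y ∧ Bd D q x y then 1 else 0)
      = ∑ v, ∑ x, ∑ y, T v x y * b x y := by
    refine Finset.sum_congr rfl fun v _ => Finset.sum_congr rfl fun x _ =>
      Finset.sum_congr rfl fun y _ => ?_
    simp only [hT, hb]
    by_cases h1 : D.A x y <;> by_cases h2 : D.A v x <;> by_cases h3 : D.A v y <;>
      by_cases h4 : Bd D q x y <;> simp [h1, h2, h3, h4]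
  -- the three rotations
  have R1 : ∑ v, ∑ x, ∑ y, T v x y * b x y = ∑ v, ∑ x, ∑ y, T v x y * b v y := by
    rw [Finset.sum_comm]
    refine Finset.sum_congr rfl fun v _ => Finset.sum_congr rfl fun x _ =>
      Finset.sum_congr rfl fun y _ => ?_
    rw [Tsym2 x v y]
  have R2 : ∑ v, ∑ x, ∑ y, T v x y * b v y = ∑ v, ∑ x, ∑ y, T v x y * b v x := by
    refine Finset.sum_congr rfl fun v _ => ?_
    rw [Finset.sum_comm]
    refine Finset.sum_congr rfl fun x _ => Finset.sum_congr rfl fun y _ => ?_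
    rw [Tsym1 v y x]
  -- pair terms
  have P12 : ∑ v, ∑ x, ∑ y, T v x y * (b v x * b v y)
      ≤ ∑ v, (univ.filter fun x => Bd D q v x).card ^ 2 := by
    refine Finset.sum_le_sum fun v _ => ?_
    have : (univ.filter fun x => Bd D q v x).card = ∑ x, b v x := by
      rw [Finset.card_filter]
    rw [this, sq, Finset.sum_mul_sum]
    refine Finset.sum_le_sum fun x _ => Finset.sum_le_sum fun y _ => ?_
    have : T v x y ≤ 1 := by
      simp only [hT]; split_ifs <;> simp
    calc T v x y * (b v x * b v y) ≤ 1 * (b v x * b v y) := Nat.mul_le_mul_right _ this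
      _ = _ := by ring
  have P13 : ∑ v, ∑ x, ∑ y, T v x y * (b v x * b x y)
      = ∑ v, ∑ x, ∑ y, T v x y * (b v x * b v y) := by
    rw [Finset.sum_comm]
    refine Finset.sum_congr rfl fun v _ => Finset.sum_congr rfl fun x _ =>
      Finset.sum_congr rfl fun y _ => ?_
    rw [Tsym2 x v y, bsym x v]
  have P23 : ∑ v, ∑ x, ∑ y, T v x y * (b v y * b x y)
      = ∑ v, ∑ x, ∑ y, T v x y * (b v x * b x y) := by
    refine Finset.sum_congr rfl fun v _ => ?_
    rw [Finset.sum_comm]
    refine Finset.sum_congr rfl fun x _ => Finset.sum_congr rfl fun y _ => ?_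
    rw [Tsym1 v y x, bsym y x]
  have main : ∑ v, ∑ x, ∑ y, T v x y * b x y + ∑ v, ∑ x, ∑ y, T v x y * b v y
        + ∑ v, ∑ x, ∑ y, T v x y * b v x
      ≤ ∑ v, ∑ x, ∑ y, T v x y + ∑ v, ∑ x, ∑ y, T v x y * (b v x * b v y)
        + ∑ v, ∑ x, ∑ y, T v x y * (b v x * b x y)
        + ∑ v, ∑ x, ∑ y, T v x y * (b v y * b x y) := by
    simp only [← Finset.sum_add_distrib]
    refine Finset.sum_le_sum fun v _ => Finset.sum_le_sum fun x _ =>
      Finset.sum_le_sum fun y _ => ?_
    have h1 : b x y = 0 ∨ b x y = 1 := by simp only [hb]; split_ifs <;> simp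
    have h2 : b v x = 0 ∨ b v x = 1 := by simp only [hb]; split_ifs <;> simp
    have h3 : b v y = 0 ∨ b v y = 1 := by simp only [hb]; split_ifs <;> simp
    rcases h1 with h1 | h1 <;> rcases h2 with h2 | h2 <;> rcases h3 with h3 | h3 <;>
      rw [h1, h2, h3] <;> omega
  rw [L0]
  rw [P13] at P23
  change _ ≤ (∑ v, ∑ x, ∑ y, T v x y) + _
  linarith [main, P12, P13, P23, R1, R2]

/-- Some vertex has many large-coloured edges in its neighbourhood. -/
lemma exists_vertex [Nonempty V] (D : CG k V) (q M : ℕ)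
    (hM : ∀ v, (univ.filter fun x => Bd D q v x).card ≤ M) :
    ∃ v, 2 * (∑ j ∈ univ.filter (fun j : Fin k => (j : ℕ) < q),
          ∑ x, ∑ y, if D.C j x y ∧ D.A v x ∧ D.A v y then 1 else 0)
      ≤ (∑ j ∈ univ.filter (fun j : Fin k => ¬ (j : ℕ) < q),
          ∑ x, ∑ y, if D.C j x y ∧ D.A v x ∧ D.A v y then 1 else 0) + 3 * M ^ 2 := by
  by_contra hcon
  have hcon : ∀ v, (∑ j ∈ univ.filter (fun j : Fin k => ¬ (j : ℕ) < q),
          ∑ x, ∑ y, if D.C j x y ∧ D.A v x ∧ D.A v y then 1 else 0) + 3 * M ^ 2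
      < 2 * (∑ j ∈ univ.filter (fun j : Fin k => (j : ℕ) < q),
          ∑ x, ∑ y, if D.C j x y ∧ D.A v x ∧ D.A v y then 1 else 0) := by
    intro v
    by_contra h
    exact hcon ⟨v, not_lt.mp h⟩
  have key := triangle_ineq D q
  -- rewrite the colour sums
  have hB : ∀ v, (∑ j ∈ univ.filter (fun j : Fin k => (j : ℕ) < q),
          ∑ x, ∑ y, if D.C j x y ∧ D.A v x ∧ D.A v y then 1 else 0)
      = ∑ x, ∑ y, if D.A x y ∧ D.A v x ∧ D.A v y ∧ Bd D q x y then 1 else 0 := by
    intro v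
    rw [Finset.sum_comm]
    refine Finset.sum_congr rfl fun x _ => ?_
    rw [Finset.sum_comm]
    refine Finset.sum_congr rfl fun y _ => ?_
    have := sum_colour D (fun j : Fin k => (j : ℕ) < q) x y
    by_cases h2 : D.A v x <;> by_cases h3 : D.A v y
    · simp only [h2, h3, and_true, true_and, this]
      congr 1
      rw [eq_iff_iff]
      constructor
      · rintro ⟨j, hj, hc⟩; exact ⟨⟨j, hc⟩, j, hj, hc⟩
      · rintro ⟨_, j, hj, hc⟩; exact ⟨j, hj, hc⟩
    all_goals simp [h2, h3]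
  have hL : ∀ v, (∑ j ∈ univ.filter (fun j : Fin k => ¬ (j : ℕ) < q),
          ∑ x, ∑ y, if D.C j x y ∧ D.A v x ∧ D.A v y then 1 else 0)
      + (∑ x, ∑ y, if D.A x y ∧ D.A v x ∧ D.A v y ∧ Bd D q x y then 1 else 0)
      = ∑ x, ∑ y, if D.A x y ∧ D.A v x ∧ D.A v y then 1 else 0 := by
    intro v
    rw [← hB v, add_comm, Finset.sum_filter_add_sum_filter_not, Finset.sum_comm]
    refine Finset.sum_congr rfl fun x _ => ?_
    rw [Finset.sum_comm]
    refine Finset.sum_congr rfl fun y _ => ?_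
    have := sum_colour D (fun _ => True) x y
    simp only [Finset.filter_true] at this
    by_cases h2 : D.A v x <;> by_cases h3 : D.A v y
    · simp only [h2, h3, and_true, this]
      by_cases h4 : D.A x y
      · have : ∃ j, True ∧ D.C j x y := by
          obtain ⟨j, hj⟩ := h4
          exact ⟨j, trivial, hj⟩
        rw [if_pos this, if_pos h4]
      · have : ¬ ∃ j, True ∧ D.C j x y := by
          rintro ⟨j, -, hj⟩
          exact h4 ⟨j, hj⟩
        rw [if_neg this, if_neg h4]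
    all_goals simp [h2, h3]
  have hsum : ∑ v, ((∑ j ∈ univ.filter (fun j : Fin k => ¬ (j : ℕ) < q),
          ∑ x, ∑ y, if D.C j x y ∧ D.A v x ∧ D.A v y then 1 else 0) + 3 * M ^ 2)
      < ∑ v, 2 * (∑ j ∈ univ.filter (fun j : Fin k => (j : ℕ) < q),
          ∑ x, ∑ y, if D.C j x y ∧ D.A v x ∧ D.A v y then 1 else 0) :=
    Finset.sum_lt_sum_of_nonempty univ_nonempty fun v _ => hcon v
  have hMs : ∑ v, (univ.filter fun x => Bd D q v x).card ^ 2 ≤ ∑ v : V, M ^ 2 :=
    Finset.sum_le_sum fun v _ => Nat.pow_le_pow_left (hM v) 2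
  have hL' : (∑ v, ∑ j ∈ univ.filter (fun j : Fin k => ¬ (j : ℕ) < q),
          ∑ x, ∑ y, if D.C j x y ∧ D.A v x ∧ D.A v y then 1 else 0)
      + (∑ v, ∑ x, ∑ y, if D.A x y ∧ D.A v x ∧ D.A v y ∧ Bd D q x y then 1 else 0)
      = ∑ v, ∑ x, ∑ y, if D.A x y ∧ D.A v x ∧ D.A v y then 1 else 0 := by
    rw [← Finset.sum_add_distrib]
    exact Finset.sum_congr rfl fun v _ => hL v
  rw [Finset.sum_add_distrib, ← Finset.mul_sum, ← Finset.mul_sum] at hsum
  simp only [hB] at hsum
  generalize (∑ v, ∑ x, ∑ y, if D.A x y ∧ D.A v x ∧ D.A v y ∧ Bd D q x y then 1 else 0) = X at *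
  generalize (∑ v, ∑ x, ∑ y, if D.A x y ∧ D.A v x ∧ D.A v y then 1 else 0) = Y at *
  omega

end Pool.Agent.Work.MP_1aba1b_co
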